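import Pool.Agent.Helper28_TP.StS

/-!
# Squad TPM, module DU2: the structure from the absence of large connected sets of failed blocks
-/

set_option autoImplicit false

namespace Pool.Agent.TP.H81

open Pool.Agent.TP
open Pool.Agent.Helper33_FPP (Z2 dst Rect)

/-- joined by a walk in `S` -/
def Cn (S : Set (ℤ × ℤ)) (x y : ℤ × ℤ) : Prop := ∃ q : Z2.Walk x y, ∀ v ∈ q.support, v ∈ S

variable {S : Set (ℤ × ℤ)}

theorem Cn.refl {x : ℤ × ℤ} (h : x ∈ S) : Cn S x x :=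
  ⟨SimpleGraph.Walk.nil, by
    intro v hv
    rw [SimpleGraph.Walk.support_nil, List.mem_singleton] at hv
    rwa [hv]⟩

theorem Cn.trans {x y z : ℤ × ℤ} (h : Cn S x y) (h' : Cn S y z) : Cn S x z := by
  obtain ⟨q, hq⟩ := h
  obtain ⟨q', hq'⟩ := h'
  refine ⟨q.append q', fun v hv => ?_⟩
  rw [SimpleGraph.Walk.mem_support_append_iff] at hv
  rcases hv with hv | hv
  · exact hq v hv
  · exact hq' v hv

theorem Cn.symm {x y : ℤ × ℤ} (h : Cn S x y) : Cn S y x := by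
  obtain ⟨q, hq⟩ := h
  refine ⟨q.reverse, fun v hv => ?_⟩
  rw [SimpleGraph.Walk.support_reverse, List.mem_reverse] at hv
  exact hq v hv

theorem Cn.single {x y : ℤ × ℤ} (hx : x ∈ S) (hy : y ∈ S) (h : Z2.Adj x y) : Cn S x y := by
  refine ⟨SimpleGraph.Walk.cons h SimpleGraph.Walk.nil, fun v hv => ?_⟩
  rw [SimpleGraph.Walk.support_cons, SimpleGraph.Walk.support_nil, List.mem_cons,
    List.mem_singleton] at hv
  rcases hv with rfl | rfl
  · exact hx
  · exact hy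

theorem Cn.mem_right {x y : ℤ × ℤ} (h : Cn S x y) : y ∈ S := by
  obtain ⟨q, hq⟩ := h
  exact hq y q.end_mem_support

theorem Cn.mem_left {x y : ℤ × ℤ} (h : Cn S x y) : x ∈ S := by
  obtain ⟨q, hq⟩ := h
  exact hq x q.start_mem_support

/-- all vertices of the walk are joined to its start -/
theorem Cn.of_walk {x y : ℤ × ℤ} (q : Z2.Walk x y) (hq : ∀ v ∈ q.support, v ∈ S) :
    ∀ v ∈ q.support, Cn S x v := by
  intro v hv
  classical
  exact ⟨q.takeUntil v hv, fun w hw => hq w (q.support_takeUntil_subset_support hv hw)⟩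

/-- the set of the points joined to `c` is connected -/
theorem zc_comp (c : ℤ × ℤ) : ZC {v | Cn S c v} := by
  intro x hx y hy
  have h : Cn S x y := Cn.trans (Cn.symm hx) hy
  obtain ⟨q, hq⟩ := h
  refine ⟨q, fun v hv => ?_⟩
  exact Cn.trans hx (Cn.of_walk q hq v hv)

theorem adj_h (x y : ℤ) : Z2.Adj (x, y) (x + 1, y) := by
  show (x - (x + 1)).natAbs + (y - y).natAbs = 1
  omega

theorem adj_v (x y : ℤ) : Z2.Adj (x, y) (x, y + 1) := by
  show (x - x).natAbs + (y - (y + 1)).natAbs = 1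
  omega

/-- columns are connected -/
theorem zc_col (c a b : ℤ) : ZC {v : ℤ × ℤ | v.1 = c ∧ a ≤ v.2 ∧ v.2 ≤ b} := by
  have key : ∀ (n : ℕ) (y : ℤ), a ≤ y → y + n ≤ b →
      Cn {v : ℤ × ℤ | v.1 = c ∧ a ≤ v.2 ∧ v.2 ≤ b} (c, y) (c, y + n) := by
    intro n
    induction n with
    | zero =>
      intro y h1 h2
      simp only [Nat.cast_zero, add_zero] at h2 ⊢
      exact Cn.refl ⟨rfl, h1, h2⟩
    | succ n ih =>
      intro y h1 h2
      push_cast at h2
      have e1 := ih y h1 (by omega)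
      have e2 : Cn {v : ℤ × ℤ | v.1 = c ∧ a ≤ v.2 ∧ v.2 ≤ b} (c, y + n) (c, y + n + 1) := by
        refine Cn.single ?_ ?_ (adj_v _ _)
        · refine ⟨rfl, ?_, ?_⟩ <;> simp only <;> omega
        · refine ⟨rfl, ?_, ?_⟩ <;> simp only <;> omega
      have e3 : (c, y + ((n + 1 : ℕ) : ℤ)) = (c, y + n + 1) := by
        push_cast
        rw [add_assoc]
      rw [e3]
      exact e1.trans e2
  rintro ⟨x1, x2⟩ ⟨h1, h2, h3⟩ ⟨y1, y2⟩ ⟨h4, h5, h6⟩
  simp only at h1 h2 h3 h4 h5 h6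
  subst h1 h4
  rcases le_total x2 y2 with h | h
  · have := key (y2 - x2).toNat x2 h2 (by omega)
    rw [Int.toNat_of_nonneg (by omega)] at this
    have e : x2 + (y2 - x2) = y2 := by ring
    rw [e] at this
    exact this
  · have := key (x2 - y2).toNat y2 h5 (by omega)
    rw [Int.toNat_of_nonneg (by omega)] at this
    have e : y2 + (x2 - y2) = x2 := by ring
    rw [e] at this
    exact this.symm

/-- rows are connected -/
theorem zc_row (c a b : ℤ) : ZC {v : ℤ × ℤ | v.2 = c ∧ a ≤ v.1 ∧ v.1 ≤ b} := by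
  have key : ∀ (n : ℕ) (x : ℤ), a ≤ x → x + n ≤ b →
      Cn {v : ℤ × ℤ | v.2 = c ∧ a ≤ v.1 ∧ v.1 ≤ b} (x, c) (x + n, c) := by
    intro n
    induction n with
    | zero =>
      intro x h1 h2
      simp only [Nat.cast_zero, add_zero] at h2 ⊢
      exact Cn.refl ⟨rfl, h1, h2⟩
    | succ n ih =>
      intro x h1 h2
      push_cast at h2
      have e1 := ih x h1 (by omega)
      have e2 : Cn {v : ℤ × ℤ | v.2 = c ∧ a ≤ v.1 ∧ v.1 ≤ b} (x + n, c) (x + n + 1, c) := by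
        refine Cn.single ?_ ?_ (adj_h _ _)
        · refine ⟨rfl, ?_, ?_⟩ <;> simp only <;> omega
        · refine ⟨rfl, ?_, ?_⟩ <;> simp only <;> omega
      have e3 : (x + ((n + 1 : ℕ) : ℤ), c) = (x + n + 1, c) := by
        push_cast
        rw [add_assoc]
      rw [e3]
      exact e1.trans e2
  rintro ⟨x1, x2⟩ ⟨h1, h2, h3⟩ ⟨y1, y2⟩ ⟨h4, h5, h6⟩
  simp only at h1 h2 h3 h4 h5 h6
  subst h1 h4
  rcases le_total x1 y1 with h | h
  · have := key (y1 - x1).toNat x1 h2 (by omega)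
    rw [Int.toNat_of_nonneg (by omega)] at this
    have e : x1 + (y1 - x1) = y1 := by ring
    rw [e] at this
    exact this
  · have := key (x1 - y1).toNat y1 h5 (by omega)
    rw [Int.toNat_of_nonneg (by omega)] at this
    have e : y1 + (x1 - y1) = x1 := by ring
    rw [e] at this
    exact this.symm

/-- a connected set takes all intermediate values of a coordinate -/
theorem sc_card {T : Finset (ℤ × ℤ)} (hT : SC T) (f : ℤ × ℤ → ℤ)
    (hf : ∀ u v, dst u v ≤ 1 → |f u - f v| ≤ 1) {u v : ℤ × ℤ} (hu : u ∈ T) (hv : v ∈ T) {n : ℕ}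
    (h : f v = f u + n) : n + 1 ≤ T.card := by
  have key : ∀ c : ℤ, f u ≤ c → c ≤ f v → ∃ w ∈ T, f w = c := by
    intro c h1 h2
    have h3 := hT u hu v hv
    -- along the chain there is a last point with value at most c
    have : ∀ w, Relation.ReflTransGen (fun u v => v ∈ T ∧ dst u v ≤ 1) u w → w ∈ T →
        c ≤ f w → ∃ w ∈ T, f w = c := by
      intro w hw
      induction hw with
      | refl => intro h4 h5; exact ⟨u, hu, le_antisymm h1 h5⟩
      | tail hab hbc ih =>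
        rename_i b c'
        intro h4 h5
        by_cases h6 : c ≤ f b
        · refine ih ?_ h6
          rcases hab.cases_tail with h7 | ⟨d, _, h7⟩
          · rw [h7]; exact hu
          · exact h7.1
        · have h8 := hf b c' hbc.2
          rw [abs_le] at h8
          exact ⟨c', hbc.1, by omega⟩
    exact this v h3 hv h2
  have hsub : (Finset.Icc (f u) (f v)) ⊆ T.image f := by
    intro c hc
    rw [Finset.mem_Icc] at hc
    obtain ⟨w, hw, hwc⟩ := key c hc.1 hc.2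
    exact Finset.mem_image.2 ⟨w, hw, hwc⟩
  have h1 := (Finset.card_le_card hsub).trans Finset.card_image_le
  rw [Int.card_Icc, h] at h1
  have : (f u + n + 1 - f u).toNat = n + 1 := by
    have : f u + n + 1 - f u = ((n + 1 : ℕ) : ℤ) := by push_cast; ring
    rw [this, Int.toNat_natCast]
  omega

theorem fst_dst (u v : ℤ × ℤ) (h : dst u v ≤ 1) : |u.1 - v.1| ≤ 1 := by
  unfold dst at h
  have := le_max_left (u.1 - v.1).natAbs (u.2 - v.2).natAbs
  rw [Int.abs_eq_natAbs]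
  omega

theorem snd_dst (u v : ℤ × ℤ) (h : dst u v ≤ 1) : |u.2 - v.2| ≤ 1 := by
  unfold dst at h
  have := le_max_right (u.1 - v.1).natAbs (u.2 - v.2).natAbs
  rw [Int.abs_eq_natAbs]
  omega

/-- a crossing of the window -/
theorem crossing {C : Set (ℤ × ℤ)} {x H : ℤ} (hH : 0 ≤ H) {p q : ℤ × ℤ} (hp : p.1 ≤ x)
    (hq : x + H ≤ q.1) (w : Z2.Walk p q) (hw : ∀ v ∈ w.support, v ∈ C) :
    ∃ c u : ℤ × ℤ, c.1 = x ∧ u.1 = x + H ∧ Cn (C ∩ {v | x ≤ v.1 ∧ v.1 ≤ x + H}) c u := by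
  by_contra hcon
  push Not at hcon
  set W : Set (ℤ × ℤ) := C ∩ {v | x ≤ v.1 ∧ v.1 ≤ x + H} with hW
  have key : ∀ (a b : ℤ × ℤ) (w : Z2.Walk a b), (∀ v ∈ w.support, v ∈ C) →
      (a.1 < x ∨ ∃ c : ℤ × ℤ, c.1 = x ∧ Cn W c a) →
      (b.1 < x ∨ ∃ c : ℤ × ℤ, c.1 = x ∧ Cn W c b) := by
    intro a b w
    induction w with
    | nil => intro _ h; exact h
    | cons hadj w ih =>
      rename_i a a' b
      intro hw' h
      have hsup : ∀ v ∈ w.support, v ∈ C := fun v hv => hw' v (by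
        rw [SimpleGraph.Walk.support_cons]
        exact List.mem_cons_of_mem _ hv)
      refine ih hsup ?_
      have ha' : a' ∈ C := hsup a' w.start_mem_support
      have hadj' : (a.1 - a'.1).natAbs + (a.2 - a'.2).natAbs = 1 := hadj
      by_cases h1 : a'.1 < x
      · exact Or.inl h1
      · right
        rcases h with h | ⟨c, hc, hca⟩
        · have h2 : a'.1 = x := by omega
          exact ⟨a', h2, Cn.refl ⟨ha', by rw [Set.mem_ofPred_eq, h2]; constructor <;> omega⟩⟩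
        · by_cases h3 : a'.1 ≤ x + H
          · exact ⟨c, hc, hca.trans (Cn.single hca.mem_right ⟨ha', by
              rw [Set.mem_ofPred_eq]; constructor <;> omega⟩ hadj)⟩
          · exfalso
            have h4 := hca.mem_right
            obtain ⟨-, h5, h6⟩ := h4
            exact hcon c a hc (by omega) hca
  have hp' : p.1 < x ∨ ∃ c : ℤ × ℤ, c.1 = x ∧ Cn W c p := by
    rcases lt_or_eq_of_le hp with h | h
    · exact Or.inl h
    · exact Or.inr ⟨p, h, Cn.refl ⟨hw p w.start_mem_support, by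
        rw [Set.mem_ofPred_eq, h]; constructor <;> omega⟩⟩
  rcases key p q w hw hp' with h | ⟨c, hc, hcq⟩
  · omega
  · obtain ⟨-, h5, h6⟩ := hcq.mem_right
    exact hcon c q hc (by omega) hcq

theorem du2 : SepStmt → SubtStmt → Du2Stmt := by
  intro hSep hSub x₀ x₁ x₂ h C F hh hx01 hx12 hC hZC hCl hCb hCt hF hT
  -- no large connected set
  have big : ∀ T : Finset (ℤ × ℤ), T ⊆ F → SC T → ∀ f : ℤ × ℤ → ℤ,
      (∀ u v, dst u v ≤ 1 → |f u - f v| ≤ 1) → ∀ u ∈ T, ∀ v ∈ T, f v = f u + (2 * h : ℕ) →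
      False := by
    intro T hTF hTS f hf u hu v hv he
    have h1 := sc_card hTS f hf hu hv he
    obtain ⟨T', h2, -, h3, h4⟩ := hSub T u (2 * h + 1) hTS hu (by omega) h1
    exact hT T' (h2.trans hTF) h4 h3
  have hne : (C : Set (ℤ × ℤ)).Nonempty := by
    obtain ⟨u, hu, -⟩ := hCl
    exact ⟨u, hu⟩
  have hx02 : x₀ ≤ x₂ := by omega
  have hright : ∃ z ∈ C, z.1 = x₂ := by
    by_contra hcon
    push Not at hcon
    set K : Set (ℤ × ℤ) := {v : ℤ × ℤ | v.1 = x₂ ∧ 0 ≤ v.2 ∧ v.2 ≤ 2 * (h : ℤ)} with hK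
    obtain ⟨T, hT1, hT2, hT3⟩ := hSep (x₀, 0) (x₂, 2 * (h : ℤ)) ↑C K ↑F hC
      (by
        rintro v ⟨h1, h2, h3⟩
        exact ⟨by simp only; omega, by simp only; omega, h2, h3⟩)
      (by
        rw [Set.disjoint_left]
        intro v h1 h2
        exact hcon v h1 h2.1)
      hne ⟨(x₂, 0), rfl, le_rfl, by simp only; omega⟩ hZC (zc_col _ _ _)
      (by
        intro u hu v hv huv
        exact hF u hu v hv huv)
    have hTF : T ⊆ F := fun v hv => (hT1 hv).1.1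
    have hrow : ∀ y : ℤ, 0 ≤ y → y ≤ 2 * (h : ℤ) → (∃ u ∈ C, u.2 = y) → ∃ v ∈ T, v.2 = y := by
      intro y hy1 hy2 ⟨u, hu, huy⟩
      obtain ⟨v, hv, hvL⟩ := hT3 {v : ℤ × ℤ | v.2 = y ∧ x₀ ≤ v.1 ∧ v.1 ≤ x₂}
        (by
          rintro v ⟨h1, h2, h3⟩
          exact ⟨h2, h3, by simp only; omega, by simp only; omega⟩)
        (zc_row _ _ _)
        ⟨u, ⟨huy, (hC hu).1, (hC hu).2.1⟩, hu⟩
        ⟨(x₂, y), ⟨rfl, hx02, le_rfl⟩, ⟨rfl, hy1, hy2⟩⟩
      exact ⟨v, hv, hvL.1⟩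
    obtain ⟨u, hu, hu0⟩ := hrow 0 le_rfl (by omega) hCb
    obtain ⟨v, hv, hv0⟩ := hrow (2 * h) (by omega) le_rfl hCt
    exact big T hTF hT2 (fun z => z.2) (fun u v h => snd_dst u v h) u hu v hv (by
      rw [hu0, hv0]
      push_cast
      ring)
  refine ⟨?_, hZC, ?_, hright, ?_⟩
  · intro z hz
    obtain ⟨h1, h2, h3, h4⟩ := hC hz
    exact ⟨h1, h2, h3, h4⟩
  · obtain ⟨u, hu, hu0⟩ := hCl
    exact ⟨u, hu, by omega⟩
  · intro x hx1 hx2 B hB hZB hBl hBr
    by_contra hcon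
    push Not at hcon
    obtain ⟨p, hp, hp0⟩ := hCl
    obtain ⟨q, hq, hq0⟩ := hright
    obtain ⟨w, hw⟩ := hZC p hp q hq
    obtain ⟨c, u, hc, hu, hcu⟩ := crossing (C := (C : Set (ℤ × ℤ))) (x := x) (H := 2 * (h : ℤ))
      (by omega) (by omega) (by omega) w hw
    set W : Set (ℤ × ℤ) := (C : Set (ℤ × ℤ)) ∩ {v | x ≤ v.1 ∧ v.1 ≤ x + 2 * (h : ℤ)} with hW
    have hWR : W ⊆ Rect (x, 0) (x + 2 * (h : ℤ), 2 * (h : ℤ)) := by
      rintro v ⟨h1, h2, h3⟩
      obtain ⟨-, -, h4, h5⟩ := hC h1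
      exact ⟨h2, h3, h4, h5⟩
    obtain ⟨b1, hb1, hb1x⟩ := hBl
    obtain ⟨b2, hb2, hb2x⟩ := hBr
    obtain ⟨T, hT1, hT2, hT3⟩ := hSep (x, 0) (x + 2 * (h : ℤ), 2 * (h : ℤ)) {v | Cn W c v} B ↑F
      (by
        intro v hv
        exact hWR (Cn.mem_right hv))
      hB
      (by
        rw [Set.disjoint_left]
        intro v h1 h2
        exact hcon v (Cn.mem_right h1).1 h2)
      ⟨c, Cn.refl hcu.mem_left⟩ ⟨b1, hb1⟩ (zc_comp c) hZB
      (by
        intro a ha v hv hav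
        have ha' : a ∈ W := Cn.mem_right ha
        have h1 : v ∈ Rect (x₀, 0) (x₂, 2 * (h : ℤ)) := by
          obtain ⟨g1, g2, g3, g4⟩ := hv
          simp only at g1 g2 g3 g4
          exact ⟨by simp only; omega, by simp only; omega, g3, g4⟩
        rcases hF a ha'.1 v h1 hav with h2 | h2
        · left
          refine Cn.trans ha (Cn.single ha' ⟨h2, ?_⟩ hav)
          exact ⟨hv.1, hv.2.1⟩
        · exact Or.inr h2)
    have hTF : T ⊆ F := fun v hv => (hT1 hv).1.1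
    have hcol : ∀ y : ℤ, x ≤ y → y ≤ x + 2 * (h : ℤ) → (∃ v, Cn W c v ∧ v.1 = y) →
        (∃ v ∈ B, v.1 = y) → ∃ v ∈ T, v.1 = y := by
      intro y hy1 hy2 ⟨a, ha, hay⟩ ⟨b, hb, hby⟩
      obtain ⟨v, hv, hvL⟩ := hT3 {v : ℤ × ℤ | v.1 = y ∧ 0 ≤ v.2 ∧ v.2 ≤ 2 * (h : ℤ)}
        (by
          rintro v ⟨h1, h2, h3⟩
          exact ⟨by simp only; omega, by simp only; omega, h2, h3⟩)
        (zc_col _ _ _)
        ⟨a, ⟨hay, (hWR (Cn.mem_right ha)).2.2.1, (hWR (Cn.mem_right ha)).2.2.2⟩, ha⟩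
        ⟨b, ⟨hby, (hB hb).2.2.1, (hB hb).2.2.2⟩, hb⟩
      exact ⟨v, hv, hvL.1⟩
    obtain ⟨s, hs, hs0⟩ := hcol x le_rfl (by omega) ⟨c, Cn.refl hcu.mem_left, hc⟩ ⟨b1, hb1, hb1x⟩
    obtain ⟨s', hs', hs0'⟩ := hcol (x + 2 * (h : ℤ)) (by omega) le_rfl ⟨u, hcu, hu⟩
      ⟨b2, hb2, hb2x⟩
    exact big T hTF hT2 (fun z => z.1) (fun u v h => fst_dst u v h) s hs s' hs' (by
      rw [hs0, hs0']
      push_cast
      ring)

end Pool.Agent.TP.H81
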